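import Mathlib
import Pool.Agent.Q167.VC.Stm

/-!
Project VC (helper167), lemma job PAR (helper42): parametrisation of the eigenvalues.
-/

set_option autoImplicit false

open Pool.Agent.Q167.VC

namespace Pool.Agent.Q42.VC

/-- `PP (-2 cos δ) j * sin (δ/2) = (-1)^j sin ((j + 1/2) δ)`. -/
theorem pp_sin (δ : ℂ) : ∀ j : ℕ, PP (-2 * Complex.cos δ) j * Complex.sin (δ / 2)
    = (-1) ^ j * Complex.sin (((j : ℂ) + 1 / 2) * δ) ∧
    PP (-2 * Complex.cos δ) (j + 1) * Complex.sin (δ / 2)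
    = (-1) ^ (j + 1) * Complex.sin (((j : ℂ) + 1 + 1 / 2) * δ) := by
  intro j
  induction j with
  | zero =>
    constructor
    · simp only [PP, pow_zero, one_mul, Nat.cast_zero, zero_add]
      congr 1
      ring
    · simp only [PP, zero_add, pow_one, Nat.cast_zero]
      have e : (1 + 1 / 2 : ℂ) * δ = δ + δ / 2 := by ring
      have e2 : Complex.sin (δ / 2) = Complex.sin (δ - δ / 2) := by congr 1; ring
      have h1 : Complex.sin (δ / 2) = Complex.sin δ * Complex.cos (δ / 2)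
          - Complex.cos δ * Complex.sin (δ / 2) := by
        conv_lhs => rw [e2]
        rw [Complex.sin_sub]
      rw [e, Complex.sin_add]
      linear_combination (-1 : ℂ) * h1
  | succ j ih =>
    obtain ⟨h0, h1⟩ := ih
    refine ⟨?_, ?_⟩
    · rw [h1]
      push_cast
      ring_nf
    · have hP : PP (-2 * Complex.cos δ) (j + 1 + 1) = (-2 * Complex.cos δ)
          * PP (-2 * Complex.cos δ) (j + 1) - PP (-2 * Complex.cos δ) j := rfl
      rw [hP, sub_mul, mul_assoc, h1, h0]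
      have e1 : (((j : ℂ) + 1 + 1 / 2) * δ) + δ = ((((j + 1 : ℕ) : ℂ) + 1 + 1 / 2) * δ) := by
        push_cast; ring
      have e2 : (((j : ℂ) + 1 + 1 / 2) * δ) - δ = (((j : ℂ) + 1 / 2) * δ) := by ring
      rw [← e1, ← e2, Complex.sin_add, Complex.sin_sub]
      ring

/-- For a real `h` all `PP h j` are real. -/
theorem pp_real (r : ℝ) : ∀ j : ℕ, (PP (r : ℂ) j).im = 0 ∧ (PP (r : ℂ) (j + 1)).im = 0 := by
  intro j
  induction j with
  | zero => simp [PP]
  | succ j ih =>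
    refine ⟨ih.2, ?_⟩
    have hP : PP (r : ℂ) (j + 1 + 1) = (r : ℂ) * PP (r : ℂ) (j + 1) - PP (r : ℂ) j := rfl
    rw [hP, Complex.sub_im, Complex.im_ofReal_mul, ih.1, ih.2]
    ring

/-- Two consecutive `PP h j` are not both zero. -/
theorem pp_ne (h : ℂ) : ∀ j : ℕ, PP h j = 0 → PP h (j + 1) = 0 → False := by
  intro j
  induction j with
  | zero => intro h0; simp [PP] at h0
  | succ j ih =>
    intro h0 h1
    have hP : PP h (j + 1 + 1) = h * PP h (j + 1) - PP h j := rfl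
    rw [hP, h0, mul_zero, zero_sub, neg_eq_zero] at h1
    exact ih h1 h0

/-- Every `h` is `-2 cos (α - i b)` with `0 ≤ α ≤ π`. -/
theorem exists_delta (h : ℂ) : ∃ α b : ℝ, 0 ≤ α ∧ α ≤ Real.pi ∧
    h = -2 * Complex.cos ((α : ℂ) - b * Complex.I) := by
  obtain ⟨d, hd⟩ := Complex.cos_surjective (-h / 2)
  -- normalise the real part
  obtain ⟨k, hk⟩ : ∃ k : ℤ, -Real.pi < d.re + k * (2 * Real.pi) ∧
      d.re + k * (2 * Real.pi) ≤ Real.pi := by
    have := toIocMod_mem_Ioc Real.two_pi_pos (-Real.pi) d.re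
    rw [toIocMod, zsmul_eq_mul] at this
    refine ⟨-toIocDiv Real.two_pi_pos (-Real.pi) d.re, ?_, ?_⟩
    · push_cast
      linarith [this.1]
    · push_cast
      have := this.2
      linarith
  set e : ℂ := d + k * (2 * Real.pi) with he
  have hce : Complex.cos e = -h / 2 := by
    rw [he, Complex.cos_add_int_mul_two_pi, hd]
  have hre : e.re = d.re + k * (2 * Real.pi) := by
    rw [he]
    simp
  have hee : e = (e.re : ℂ) + e.im * Complex.I := (Complex.re_add_im e).symm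
  rcases le_or_gt 0 e.re with h0 | h0
  · refine ⟨e.re, -e.im, h0, by rw [hre]; exact hk.2, ?_⟩
    have : ((e.re : ℝ) : ℂ) - ((-e.im : ℝ) : ℂ) * Complex.I = e := by
      conv_rhs => rw [hee]
      push_cast
      ring
    rw [this, hce]
    ring
  · refine ⟨-e.re, e.im, by linarith, by rw [hre] at h0 ⊢; linarith [hk.1], ?_⟩
    have : (((-e.re : ℝ)) : ℂ) - ((e.im : ℝ) : ℂ) * Complex.I = -e := by
      conv_rhs => rw [hee]
      push_cast
      ring
    rw [this, Complex.cos_neg, hce]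
    ring

/-- Real and imaginary part of `cos (α - i b)`. -/
theorem cos_ab (α b : ℝ) : Complex.cos ((α : ℂ) - b * Complex.I)
    = ((Real.cos α * Real.cosh b : ℝ) : ℂ) + ((Real.sin α * Real.sinh b : ℝ) : ℂ) * Complex.I := by
  have : (α : ℂ) - b * Complex.I = (α : ℂ) + ((-b : ℝ) : ℂ) * Complex.I := by push_cast; ring
  rw [this, Complex.cos_add_mul_I]
  rw [← Complex.ofReal_cos, ← Complex.ofReal_cosh, ← Complex.ofReal_sin, ← Complex.ofReal_sinh,
    Real.cosh_neg, Real.sinh_neg]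
  push_cast
  ring

/-- Real and imaginary part of `sin (t (α - i b))`. -/
theorem sin_ab (t α b : ℝ) : Complex.sin ((t : ℂ) * ((α : ℂ) - b * Complex.I))
    = ((Real.sin (t * α) * Real.cosh (t * b) : ℝ) : ℂ)
      + ((-(Real.cos (t * α) * Real.sinh (t * b)) : ℝ) : ℂ) * Complex.I := by
  have : (t : ℂ) * ((α : ℂ) - b * Complex.I)
      = ((t * α : ℝ) : ℂ) + ((-(t * b) : ℝ) : ℂ) * Complex.I := by push_cast; ring
  rw [this, Complex.sin_add_mul_I]
  rw [← Complex.ofReal_cos, ← Complex.ofReal_cosh, ← Complex.ofReal_sin, ← Complex.ofReal_sinh,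
    Real.cosh_neg, Real.sinh_neg]
  push_cast
  ring

/-- PAR, with `b` of unknown sign. -/
theorem par : S_par := by
  intro p hp φ hφ1 hφ0 h hroot
  obtain ⟨α, b, hα0, hαπ, hh⟩ := exists_delta h
  have hπ := Real.pi_pos
  set x : ℝ := Real.cos φ with hx
  set y : ℝ := Real.sin φ with hy
  have hy0 : y < 0 := by
    rw [hy]
    exact Real.sin_neg_of_neg_of_neg_pi_lt hφ0 (by linarith)
  have hxy : x ^ 2 + y ^ 2 = 1 := by rw [hx, hy]; exact Real.cos_sq_add_sin_sq φ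
  have hz : Complex.exp (φ * Complex.I) = (x : ℂ) + y * Complex.I := by
    rw [Complex.exp_mul_I, ← Complex.ofReal_cos, ← Complex.ofReal_sin]
  obtain ⟨q, rfl⟩ : ∃ q, p = q + 1 := ⟨p - 1, by omega⟩
  rw [Nat.add_sub_cancel, hz] at hroot
  -- `h` is not real
  have hnr : h.im ≠ 0 := by
    intro him
    have hr : h = (h.re : ℂ) := by
      apply Complex.ext <;> simp [him]
    rw [hr] at hroot
    have r1 := (pp_real h.re q).1
    have r2 := (pp_real h.re q).2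
    have him2 := congrArg Complex.im hroot
    rw [r2] at him2
    simp only [Complex.mul_im, Complex.add_im, Complex.add_re, Complex.ofReal_im,
      Complex.ofReal_re, Complex.mul_re, Complex.I_im, Complex.I_re, mul_zero, mul_one,
      sub_self, add_zero, zero_add, r1] at him2
    have hq0 : (PP (h.re : ℂ) q).re = 0 := by
      rcases mul_eq_zero.1 him2.symm with h2 | h2
      · exact absurd h2 hy0.ne
      · exact h2
    have hq : PP (h.re : ℂ) q = 0 := Complex.ext (by simpa using hq0) (by simpa using r1)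
    have hq1 : PP (h.re : ℂ) (q + 1) = 0 := by rw [hroot, hq, mul_zero]
    exact pp_ne _ q hq hq1
  have him : h.im = -2 * (Real.sin α * Real.sinh b) := by
    have aux : ∀ A B : ℝ, (-2 * ((A : ℂ) + (B : ℂ) * Complex.I)).im = -2 * B := by
      intro A B
      simp
    rw [hh, cos_ab, aux]
  have hsα : Real.sin α ≠ 0 := by
    intro h0
    rw [him, h0] at hnr
    simp at hnr
  have hb0 : b ≠ 0 := by
    rintro rfl
    rw [him] at hnr
    simp at hnr
  have hα0' : 0 < α := lt_of_le_of_ne hα0 (by rintro rfl; simp at hsα)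
  have hαπ' : α < Real.pi := lt_of_le_of_ne hαπ (by rintro rfl; simp at hsα)
  have hsα' : 0 < Real.sin α := Real.sin_pos_of_pos_of_lt_pi hα0' hαπ'
  -- the equation for the sines
  set δ : ℂ := (α : ℂ) - b * Complex.I with hδ
  have hs2 : Complex.sin (δ / 2) ≠ 0 := by
    intro h0
    have e : Complex.cos δ = 1 := by
      have : δ = 2 * (δ / 2) := by ring
      rw [this, Complex.cos_two_mul]
      have h3 := Complex.sin_sq_add_cos_sq (δ / 2)
      rw [h0] at h3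
      linear_combination 2 * h3
    rw [e] at hh
    rw [hh] at hnr
    simp at hnr
  have key : Complex.sin (((q : ℂ) + 1 + 1 / 2) * δ)
      = -((x : ℂ) + y * Complex.I) * Complex.sin (((q : ℂ) + 1 / 2) * δ) := by
    have h1 := (pp_sin δ q).1
    have h2 := (pp_sin δ q).2
    rw [← hh] at h1 h2
    have h3 : (-1) ^ (q + 1) * Complex.sin (((q : ℂ) + 1 + 1 / 2) * δ)
        = ((x : ℂ) + y * Complex.I) * ((-1) ^ q * Complex.sin (((q : ℂ) + 1 / 2) * δ)) := by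
      rw [← h1, ← h2, hroot]
      ring
    have h4 : ((-1 : ℂ) ^ q) ≠ 0 := pow_ne_zero _ (by norm_num)
    apply mul_left_cancel₀ h4
    linear_combination (-1 : ℂ) * h3
  set t₁ : ℝ := (q : ℝ) + 1 + 1 / 2 with ht1
  set t₂ : ℝ := (q : ℝ) + 1 / 2 with ht2
  have c1 : ((q : ℂ) + 1 + 1 / 2) = (t₁ : ℂ) := by rw [ht1]; push_cast; ring
  have c2 : ((q : ℂ) + 1 / 2) = (t₂ : ℂ) := by rw [ht2]; push_cast; ring
  rw [c1, c2, hδ, sin_ab, sin_ab] at key
  set X₁ : ℝ := Real.sin (t₁ * α) * Real.cosh (t₁ * b) with hX1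
  set Y₁ : ℝ := -(Real.cos (t₁ * α) * Real.sinh (t₁ * b)) with hY1
  set X₂ : ℝ := Real.sin (t₂ * α) * Real.cosh (t₂ * b) with hX2
  set Y₂ : ℝ := -(Real.cos (t₂ * α) * Real.sinh (t₂ * b)) with hY2
  have kre : X₁ = -(x * X₂ - y * Y₂) := by
    have := congrArg Complex.re key
    simp at this
    linarith
  have kim : Y₁ = -(x * Y₂ + y * X₂) := by
    have := congrArg Complex.im key
    simp at this
    linarith
  -- the three consequences
  have n1 : X₁ ^ 2 + Y₁ ^ 2 = X₂ ^ 2 + Y₂ ^ 2 := by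
    rw [kre, kim]
    linear_combination (X₂ ^ 2 + Y₂ ^ 2) * hxy
  have n2 : X₁ * X₂ + Y₁ * Y₂ = -x * (X₂ ^ 2 + Y₂ ^ 2) := by
    rw [kre, kim]
    ring
  have n3 : Y₁ * X₂ - X₁ * Y₂ = -y * (X₂ ^ 2 + Y₂ ^ 2) := by
    rw [kre, kim]
    ring
  -- identities
  have sq : ∀ a c : ℝ, (Real.sin a * Real.cosh c) ^ 2 + (-(Real.cos a * Real.sinh c)) ^ 2
      = Real.sin a ^ 2 + Real.sinh c ^ 2 := by
    intro a c
    have h1 := Real.cos_sq_add_sin_sq a
    have h2 := Real.cosh_sq c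
    rw [mul_pow, neg_sq, mul_pow, h2]
    linear_combination Real.sinh c ^ 2 * h1
  have s1 : X₁ ^ 2 + Y₁ ^ 2 = Real.sin (t₁ * α) ^ 2 + Real.sinh (t₁ * b) ^ 2 := sq _ _
  have s2 : X₂ ^ 2 + Y₂ ^ 2 = Real.sin (t₂ * α) ^ 2 + Real.sinh (t₂ * b) ^ 2 := sq _ _
  have a1 : 2 * ((q + 1 : ℕ) : ℝ) * α = t₁ * α + t₂ * α := by rw [ht1, ht2]; push_cast; ring
  have a2 : α = t₁ * α - t₂ * α := by rw [ht1, ht2]; ring
  have b1 : 2 * ((q + 1 : ℕ) : ℝ) * b = t₁ * b + t₂ * b := by rw [ht1, ht2]; push_cast; ring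
  have b2 : b = t₁ * b - t₂ * b := by rw [ht1, ht2]; ring
  have S2 : Real.sin (2 * ((q + 1 : ℕ) : ℝ) * α) = Real.sin (t₁ * α) * Real.cos (t₂ * α)
      + Real.cos (t₁ * α) * Real.sin (t₂ * α) := by rw [a1, Real.sin_add]
  have S1 : Real.sin α = Real.sin (t₁ * α) * Real.cos (t₂ * α)
      - Real.cos (t₁ * α) * Real.sin (t₂ * α) := by conv_lhs => rw [a2, Real.sin_sub]
  have C2 : Real.cos (2 * ((q + 1 : ℕ) : ℝ) * α) = Real.cos (t₁ * α) * Real.cos (t₂ * α)
      - Real.sin (t₁ * α) * Real.sin (t₂ * α) := by rw [a1, Real.cos_add]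
  have C1 : Real.cos α = Real.cos (t₁ * α) * Real.cos (t₂ * α)
      + Real.sin (t₁ * α) * Real.sin (t₂ * α) := by conv_lhs => rw [a2, Real.cos_sub]
  have H2 : Real.sinh (2 * ((q + 1 : ℕ) : ℝ) * b) = Real.sinh (t₁ * b) * Real.cosh (t₂ * b)
      + Real.cosh (t₁ * b) * Real.sinh (t₂ * b) := by rw [b1, Real.sinh_add]
  have H1 : Real.sinh b = Real.sinh (t₁ * b) * Real.cosh (t₂ * b)
      - Real.cosh (t₁ * b) * Real.sinh (t₂ * b) := by conv_lhs => rw [b2, Real.sinh_sub]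
  have K2 : Real.cosh (2 * ((q + 1 : ℕ) : ℝ) * b) = Real.cosh (t₁ * b) * Real.cosh (t₂ * b)
      + Real.sinh (t₁ * b) * Real.sinh (t₂ * b) := by rw [b1, Real.cosh_add]
  have K1 : Real.cosh b = Real.cosh (t₁ * b) * Real.cosh (t₂ * b)
      - Real.sinh (t₁ * b) * Real.sinh (t₂ * b) := by conv_lhs => rw [b2, Real.cosh_sub]
  have u1 := Real.cos_sq_add_sin_sq (t₁ * α)
  have u2 := Real.cos_sq_add_sin_sq (t₂ * α)
  have v1 := Real.cosh_sq (t₁ * b)
  have v2 := Real.cosh_sq (t₂ * b)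
  have E1 : Real.sin (2 * ((q + 1 : ℕ) : ℝ) * α) * Real.sin α
      = -(Real.sinh (2 * ((q + 1 : ℕ) : ℝ) * b) * Real.sinh b) := by
    rw [s1, s2] at n1
    rw [S2, S1, H2, H1]
    linear_combination n1 + Real.sin (t₁ * α) ^ 2 * u2 - Real.sin (t₂ * α) ^ 2 * u1
      + Real.sinh (t₁ * b) ^ 2 * v2 - Real.sinh (t₂ * b) ^ 2 * v1
  have T2 : 2 * (X₁ * X₂ + Y₁ * Y₂) = Real.cos α * Real.cosh (2 * ((q + 1 : ℕ) : ℝ) * b)
      - Real.cos (2 * ((q + 1 : ℕ) : ℝ) * α) * Real.cosh b := by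
    rw [C1, C2, K1, K2, hX1, hX2, hY1, hY2]
    ring
  have T3 : 2 * (Y₁ * X₂ - X₁ * Y₂) = Real.sin (2 * ((q + 1 : ℕ) : ℝ) * α) * (-Real.sinh b)
      + Real.sin α * Real.sinh (2 * ((q + 1 : ℕ) : ℝ) * b) := by
    rw [S1, S2, H1, H2, hX1, hX2, hY1, hY2]
    ring
  have T4 : 2 * (X₂ ^ 2 + Y₂ ^ 2) = Real.cosh (2 * ((q + 1 : ℕ) : ℝ) * b) * Real.cosh b
      - Real.cos (2 * ((q + 1 : ℕ) : ℝ) * α) * Real.cos α := by
    have : 2 * (X₂ ^ 2 + Y₂ ^ 2) = (X₁ ^ 2 + Y₁ ^ 2) + (X₂ ^ 2 + Y₂ ^ 2) := by rw [n1]; ring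
    rw [this, s1, s2, C1, C2, K1, K2]
    linear_combination (Real.cos (t₂ * α) ^ 2) * u1 + (1 - Real.sin (t₁ * α) ^ 2) * u2
      - (Real.cosh (t₂ * b) ^ 2) * v1 - (1 + Real.sinh (t₁ * b) ^ 2) * v2
  have hpos : 0 < X₂ ^ 2 + Y₂ ^ 2 := by
    rw [s2]
    have ht : t₂ * b ≠ 0 := mul_ne_zero (by rw [ht2]; positivity) hb0
    have : Real.sinh (t₂ * b) ≠ 0 := fun h0 => ht (Real.sinh_eq_zero.1 h0)
    positivity
  have hbpos : 0 < b := by
    by_contra hcon
    have hb : b < 0 := lt_of_le_of_ne (not_lt.1 hcon) hb0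
    have h1 : 0 < 2 * (Y₁ * X₂ - X₁ * Y₂) := by
      rw [n3]
      have : 0 < -y * (X₂ ^ 2 + Y₂ ^ 2) := mul_pos (by linarith) hpos
      linarith
    rw [T3] at h1
    have h2 : 0 < (Real.sin (2 * ((q + 1 : ℕ) : ℝ) * α) * (-Real.sinh b)
      + Real.sin α * Real.sinh (2 * ((q + 1 : ℕ) : ℝ) * b)) * Real.sin α := mul_pos h1 hsα'
    have h3 : (Real.sin (2 * ((q + 1 : ℕ) : ℝ) * α) * (-Real.sinh b)
      + Real.sin α * Real.sinh (2 * ((q + 1 : ℕ) : ℝ) * b)) * Real.sin α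
      = Real.sinh (2 * ((q + 1 : ℕ) : ℝ) * b) * (Real.sin α ^ 2 + Real.sinh b ^ 2) := by
      linear_combination (-Real.sinh b) * E1
    rw [h3] at h2
    have h4 : Real.sinh (2 * ((q + 1 : ℕ) : ℝ) * b) < 0 := by
      rw [Real.sinh_neg_iff]
      exact mul_neg_of_pos_of_neg (by positivity) hb
    have h5 : 0 ≤ Real.sin α ^ 2 + Real.sinh b ^ 2 :=
      add_nonneg (sq_nonneg _) (sq_nonneg _)
    exact absurd h2 (not_lt.2 (mul_nonpos_of_nonpos_of_nonneg h4.le h5))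
  refine ⟨α, b, hα0', hαπ', hbpos, hh, E1, ?_⟩
  have hn2 : 2 * (X₁ * X₂ + Y₁ * Y₂) = -x * (2 * (X₂ ^ 2 + Y₂ ^ 2)) := by rw [n2]; ring
  rw [T2, T4] at hn2
  linear_combination (2 : ℝ) * hn2

end Pool.Agent.Q42.VC
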