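import Mathlib
import Pool.Agent.Q167.VC.Stm

/-!
Project VC (helper167), lemma job CRO (helper42): the crossing point.
-/

set_option autoImplicit false

open Pool.Agent.Q167.VC Set Filter Topology

namespace Pool.Agent.Q42.VC

/-- Left of a zero with positive derivative the function is negative. -/
theorem neg_left {g : ℝ → ℝ} {x d y : ℝ} (h : HasDerivAt g d x) (hd : 0 < d) (h0 : g x = 0)
    (hy : y < x) : ∃ t, y < t ∧ t < x ∧ g t < 0 := by
  have h1 := hasDerivAt_iff_tendsto_slope.1 h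
  have h2 : ∀ᶠ t in 𝓝[≠] x, 0 < slope g x t := h1.eventually (lt_mem_nhds hd)
  have h3 : ∀ᶠ t in 𝓝[<] x, 0 < slope g x t :=
    h2.filter_mono (nhdsWithin_mono _ (fun t ht => ne_of_lt ht))
  have h4 : ∀ᶠ t in 𝓝[<] x, y < t := by
    have : Ioo y x ∈ 𝓝[<] x := Ioo_mem_nhdsLT hy
    filter_upwards [this] with t ht using ht.1
  have h5 : ∀ᶠ t in 𝓝[<] x, t < x := eventually_mem_nhdsWithin
  obtain ⟨t, ht3, ht4, ht5⟩ := (h3.and (h4.and h5)).exists
  refine ⟨t, ht4, ht5, ?_⟩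
  rw [slope_def_field, h0, sub_zero] at ht3
  by_contra hcon
  push Not at hcon
  have : g t / (t - x) ≤ 0 := div_nonpos_of_nonneg_of_nonpos hcon (by linarith)
  linarith

/-- A function with positive derivative at its zeros changes the sign once. -/
theorem single {g g' : ℝ → ℝ} {a b : ℝ} (hab : a < b) (hc : ContinuousOn g (Icc a b))
    (ha : g a < 0) (hb : 0 < g b) (hd : ∀ x ∈ Ioo a b, HasDerivAt g (g' x) x)
    (hz : ∀ x ∈ Ioo a b, g x = 0 → 0 < g' x) :
    ∃ x₀ ∈ Ioo a b, (∀ x ∈ Ico a x₀, g x < 0) ∧ g x₀ = 0 ∧ ∀ x ∈ Ioc x₀ b, 0 < g x := by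
  have key : ∀ x ∈ Ioo a b, 0 ≤ g x → ∀ y ∈ Icc x b, 0 ≤ g y := by
    intro x hx h0 y hy
    have := image_le_of_deriv_right_lt_deriv_boundary' (f := fun t => -g t)
      (f' := fun t => -g' t) (a := x) (b := b) (B := fun _ => 0) (B' := fun _ => 0)
      ((hc.mono (Icc_subset_Icc_left hx.1.le)).neg)
      (fun t ht => ((hd t ⟨lt_of_lt_of_le hx.1 ht.1, ht.2⟩).neg).hasDerivWithinAt)
      (by simpa using h0) continuousOn_const (fun t _ => hasDerivWithinAt_const _ _ _)
      (fun t ht h => by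
        have h' : g t = 0 := by simpa using h
        have := hz t ⟨lt_of_lt_of_le hx.1 ht.1, ht.2⟩ h'
        simpa using this) hy
    simpa using this
  obtain ⟨x₀, hx₀, h0⟩ := intermediate_value_Icc hab.le hc ⟨ha.le, hb.le⟩
  have hx0a : x₀ ≠ a := by rintro rfl; exact ha.ne h0
  have hx0b : x₀ ≠ b := by rintro rfl; exact hb.ne' h0
  have hx0 : x₀ ∈ Ioo a b := ⟨lt_of_le_of_ne hx₀.1 hx0a.symm, lt_of_le_of_ne hx₀.2 hx0b⟩
  refine ⟨x₀, hx0, ?_, h0, ?_⟩
  · intro x hx
    by_contra hcon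
    push Not at hcon
    have hxa : x ≠ a := by rintro rfl; exact absurd ha (not_lt.2 hcon)
    have hxI : x ∈ Ioo a b := ⟨lt_of_le_of_ne hx.1 hxa.symm, hx.2.trans hx0.2⟩
    obtain ⟨t, ht1, ht2, ht3⟩ := neg_left (hd x₀ hx0) (hz x₀ hx0 h0) h0 hx.2
    exact absurd ht3 (not_lt.2 (key x hxI hcon t ⟨ht1.le, (ht2.trans hx0.2).le⟩))
  · intro x hx
    have h1 : 0 ≤ g x := key x₀ hx0 h0.ge x ⟨hx.1.le, hx.2⟩
    refine lt_of_le_of_ne h1 (fun h2 => ?_)
    have hxb : x ≠ b := by rintro rfl; exact hb.ne h2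
    have hxI : x ∈ Ioo a b := ⟨hx0.1.trans hx.1, lt_of_le_of_ne hx.2 hxb⟩
    obtain ⟨t, ht1, ht2, ht3⟩ := neg_left (hd x hxI) (hz x hxI h2.symm) h2.symm hx.1
    exact absurd ht3 (not_lt.2 (key x₀ hx0 h0.ge t ⟨ht1.le, (ht2.trans hxI.2).le⟩))

theorem abs_sin_mul_le (θ : ℝ) (n : ℕ) : |Real.sin (n * θ)| ≤ n * |Real.sin θ| := by
  induction n with
  | zero => simp
  | succ n ih =>
    have e : ((n + 1 : ℕ) : ℝ) * θ = n * θ + θ := by push_cast; ring
    rw [e, Real.sin_add]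
    calc |Real.sin (n * θ) * Real.cos θ + Real.cos (n * θ) * Real.sin θ|
        ≤ |Real.sin (n * θ) * Real.cos θ| + |Real.cos (n * θ) * Real.sin θ| := abs_add_le _ _
      _ ≤ |Real.sin (n * θ)| * 1 + 1 * |Real.sin θ| := by
          rw [abs_mul, abs_mul]
          exact add_le_add
            (mul_le_mul_of_nonneg_left (Real.abs_cos_le_one _) (abs_nonneg _))
            (mul_le_mul_of_nonneg_right (Real.abs_cos_le_one _) (abs_nonneg _))
      _ ≤ ((n + 1 : ℕ) : ℝ) * |Real.sin θ| := by push_cast; linarith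

theorem mul_sinh_le {b : ℝ} (hb : 0 ≤ b) (n : ℕ) : n * Real.sinh b ≤ Real.sinh (n * b) := by
  induction n with
  | zero => simp
  | succ n ih =>
    have e : ((n + 1 : ℕ) : ℝ) * b = n * b + b := by push_cast; ring
    rw [e, Real.sinh_add]
    have h1 : 0 ≤ Real.sinh b := Real.sinh_nonneg_iff.2 hb
    have h2 : 0 ≤ Real.sinh (n * b) := Real.sinh_nonneg_iff.2 (by positivity)
    have h3 := Real.one_le_cosh b
    have h4 := Real.one_le_cosh (n * b)
    push_cast
    nlinarith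

theorem mul_sinh_lt {b : ℝ} (hb : 0 < b) {n : ℕ} (hn : 2 ≤ n) :
    n * Real.sinh b < Real.sinh (n * b) := by
  obtain ⟨m, rfl⟩ : ∃ m, n = m + 1 := ⟨n - 1, by omega⟩
  have hm : (1 : ℝ) ≤ m := by exact_mod_cast (by omega : 1 ≤ m)
  have e : ((m + 1 : ℕ) : ℝ) * b = m * b + b := by push_cast; ring
  rw [e, Real.sinh_add]
  have h0 := mul_sinh_le hb.le m
  have h1 : 0 < Real.sinh b := Real.sinh_pos_iff.2 hb
  have h2 : 0 < Real.sinh (m * b) := Real.sinh_pos_iff.2 (by positivity)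
  have h3 : 1 < Real.cosh b := Real.one_lt_cosh.2 hb.ne'
  have h4 := Real.one_le_cosh (m * b)
  push_cast
  nlinarith

/-- The real computation: positivity of the derivative at a zero. -/
theorem deriv_pos {P x y c σ r d e : ℝ} (hP : 0 < P) (hy : 0 < y) (hσ : σ < 0) (hr : 0 < r)
    (hc : r = 2 - c) (hcs : c ^ 2 + 4 * σ ^ 2 = 4) (hD : x ^ 2 + y ^ 2 = r ^ 2)
    (E1 : d * (2 * P * x) - e * (2 * (P * y - σ)) = x * (-y - 4 * P * σ) - y * (x - 2 * c))
    (E2 : d * (2 * (P * y - σ)) + e * (2 * P * x) = x * (x - 2 * c) + y * (-y - 4 * P * σ)) :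
    0 < 2 * (x * d + y * e) - 2 * r * (2 * σ) := by
  set M : ℝ := P ^ 2 * x ^ 2 + (P * y - σ) ^ 2 with hM
  have hpy : 0 < P * y - σ := by nlinarith [mul_pos hP hy]
  have hMpos : 0 < M := by positivity
  have hT : (x * d + y * e) * (4 * M)
      = 2 * r ^ 2 * (-σ * x * (1 + 4 * P ^ 2) - 2 * c * P * y + 2 * c * σ) := by
    rw [← hD, hM]
    linear_combination (x * (2 * P * x) - y * (2 * (P * y - σ))) * E1
      + (x * (2 * (P * y - σ)) + y * (2 * P * x)) * E2
  have hxr : -r ≤ x := by nlinarith [sq_nonneg y, sq_nonneg x]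
  have hfin : (2 * (x * d + y * e) - 2 * r * (2 * σ)) * (2 * M)
      = 2 * r ^ 2 * (-σ * (x + r) * (1 + 4 * P ^ 2) + 4 * P * y) := by
    have e1 : M = P ^ 2 * r ^ 2 - 2 * P * y * σ + σ ^ 2 := by
      rw [hM, ← hD]; ring
    have e2 : 4 * σ ^ 2 = r * (2 + c) := by rw [hc]; linear_combination hcs
    have e3 : (2 * (x * d + y * e) - 2 * r * (2 * σ)) * (2 * M)
        = 2 * r ^ 2 * (-σ * x * (1 + 4 * P ^ 2) - 2 * c * P * y + 2 * c * σ)
          - 8 * r * σ * (P ^ 2 * r ^ 2 - 2 * P * y * σ + σ ^ 2) := by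
      rw [← e1, ← hT]; ring
    rw [e3]
    have e4 : c = 2 - r := by linarith
    rw [e4] at e2 ⊢
    linear_combination (4 * r * P * y - 2 * r * σ) * e2
  have hpos : 0 < 2 * r ^ 2 * (-σ * (x + r) * (1 + 4 * P ^ 2) + 4 * P * y) := by
    have h1 : 0 ≤ -σ * (x + r) * (1 + 4 * P ^ 2) := by
      have : 0 ≤ x + r := by linarith
      have h2 : 0 ≤ -σ := by linarith
      positivity
    have h3 : 0 < 4 * P * y := by positivity
    positivity
  rw [← hfin] at hpos
  exact (pos_iff_pos_of_mul_pos hpos).2 (by positivity)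

/-- CRO: the crossing point. -/
theorem cro (h1 : S_par) (h2 : S_diff) : S_cross := by
  intro p hp H hF m₀ hm₀
  have hπ := Real.pi_pos
  have hpR : (2 : ℝ) ≤ p := by exact_mod_cast hp
  set D : ℝ → ℂ := fun φ => (2 * Real.cos φ : ℂ) - H m₀ φ with hD
  set g : ℝ → ℝ := fun φ => (D φ).re ^ 2 + (D φ).im ^ 2 - (2 - 2 * Real.cos φ) ^ 2 with hg
  have hnorm : ∀ φ, ‖(2 * Real.cos φ : ℂ) - H m₀ φ‖ ^ 2 = (D φ).re ^ 2 + (D φ).im ^ 2 := by
    intro φ
    rw [Complex.sq_norm, Complex.normSq_apply]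
    simp only [hD]
    ring
  have hr0 : ∀ φ, 0 ≤ 2 - 2 * Real.cos φ := fun φ => by linarith [Real.cos_le_one φ]
  -- imaginary part
  have him : ∀ φ, -(Real.pi / 2) ≤ φ → φ < 0 → 0 < (D φ).im ∧ (φ = -(Real.pi / 2) →
      ‖H m₀ φ‖ < 2) := by
    intro φ hφ1 hφ2
    obtain ⟨α, b, hα0, hαπ, hb, hh, hE1, hE2⟩ := h1 p (by omega) φ hφ1 hφ2 (H m₀ φ)
      (hF.root φ ⟨hφ1, hφ2.le⟩ m₀)
    have hs : 0 < Real.sin α := Real.sin_pos_of_pos_of_lt_pi hα0 hαπ
    have hsh : 0 < Real.sinh b := Real.sinh_pos_iff.2 hb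
    have hcos : Complex.cos ((α : ℂ) - b * Complex.I)
        = ((Real.cos α * Real.cosh b : ℝ) : ℂ)
          + ((Real.sin α * Real.sinh b : ℝ) : ℂ) * Complex.I := by
      have : (α : ℂ) - b * Complex.I = (α : ℂ) + ((-b : ℝ) : ℂ) * Complex.I := by
        push_cast; ring
      rw [this, Complex.cos_add_mul_I]
      rw [← Complex.ofReal_cos, ← Complex.ofReal_cosh, ← Complex.ofReal_sin,
        ← Complex.ofReal_sinh, Real.cosh_neg, Real.sinh_neg]
      push_cast
      ring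
    have aux : ∀ A B : ℝ, (-2 * ((A : ℂ) + (B : ℂ) * Complex.I)).im = -2 * B ∧
        (-2 * ((A : ℂ) + (B : ℂ) * Complex.I)).re = -2 * A := by
      intro A B
      constructor <;> simp
    refine ⟨?_, ?_⟩
    · have e : (D φ).im = 2 * (Real.sin α * Real.sinh b) := by
        have : (D φ).im = -(H m₀ φ).im := by
          simp [hD]
        rw [this, hh, hcos, (aux _ _).1]
        ring
      rw [e]
      positivity
    · intro _
      have hlt : Real.sinh b < Real.sin α := by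
        by_contra hcon
        push Not at hcon
        have q1 := abs_sin_mul_le α (2 * p)
        have q2 := mul_sinh_lt hb (n := 2 * p) (by omega)
        push_cast at q1 q2
        rw [abs_of_pos hs] at q1
        have q3 : Real.sinh (2 * p * b) * Real.sinh b
            = -(Real.sin (2 * p * α)) * Real.sin α := by linarith
        have q4 : -(Real.sin (2 * p * α)) ≤ |Real.sin (2 * p * α)| := neg_le_abs _
        have q5 : Real.sinh (2 * p * b) * Real.sinh b ≤ 2 * p * Real.sin α * Real.sin α := by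
          rw [q3]
          exact mul_le_mul_of_nonneg_right (q4.trans q1) hs.le
        have q6 : 2 * p * Real.sinh b * Real.sinh b < Real.sinh (2 * p * b) * Real.sinh b :=
          mul_lt_mul_of_pos_right q2 hsh
        have q7 : 2 * (p : ℝ) * Real.sin α * Real.sin α ≤ 2 * p * Real.sinh b * Real.sinh b := by
          have : Real.sin α * Real.sin α ≤ Real.sinh b * Real.sinh b :=
            mul_self_le_mul_self hs.le hcon
          have hp0 : (0 : ℝ) ≤ 2 * p := by positivity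
          nlinarith [mul_le_mul_of_nonneg_left this hp0]
        linarith
      have e : ‖H m₀ φ‖ ^ 2 = 4 * (Real.cos α ^ 2 + Real.sinh b ^ 2) := by
        rw [Complex.sq_norm, Complex.normSq_apply, hh, hcos, (aux _ _).1, (aux _ _).2]
        have u1 := Real.cos_sq_add_sin_sq α
        have v1 := Real.cosh_sq b
        linear_combination 4 * Real.cos α ^ 2 * v1 + 4 * Real.sinh b ^ 2 * u1
      have u1 := Real.cos_sq_add_sin_sq α
      have hl : Real.sinh b ^ 2 < Real.sin α ^ 2 := by nlinarith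
      have : ‖H m₀ φ‖ ^ 2 < 2 ^ 2 := by rw [e]; nlinarith
      exact lt_of_pow_lt_pow_left₀ 2 (by norm_num) this
  -- derivative
  set D' : ℝ → ℂ := fun φ => (2 * (-Real.sin φ : ℝ) : ℂ) - Complex.I * (4 - H m₀ φ ^ 2)
      / (2 * (p : ℂ) * ((2 * Real.cos φ : ℂ) - H m₀ φ) - 2 * Complex.I * Real.sin φ) with hD'
  have hDd : ∀ φ ∈ Ioo (-(Real.pi / 2)) 0, HasDerivAt D (D' φ) φ := by
    intro φ hφ
    have k1 := (h2 p hp H hF φ hφ m₀).2
    have k2 : HasDerivAt (fun ψ : ℝ => (2 * Real.cos ψ : ℂ)) (2 * (-Real.sin φ : ℝ) : ℂ) φ :=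
      ((Real.hasDerivAt_cos φ).ofReal_comp).const_mul 2
    exact k2.sub k1
  set g' : ℝ → ℝ := fun φ => 2 * ((D φ).re * (D' φ).re + (D φ).im * (D' φ).im)
      - 2 * (2 - 2 * Real.cos φ) * (2 * Real.sin φ) with hg'
  have hgd : ∀ φ ∈ Ioo (-(Real.pi / 2)) 0, HasDerivAt g (g' φ) φ := by
    intro φ hφ
    have k := hDd φ hφ
    have kre : HasDerivAt (fun ψ => (D ψ).re) (D' φ).re φ :=
      (Complex.reCLM.hasFDerivAt (x := D φ)).comp_hasDerivAt φ k
    have kim : HasDerivAt (fun ψ => (D ψ).im) (D' φ).im φ :=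
      (Complex.imCLM.hasFDerivAt (x := D φ)).comp_hasDerivAt φ k
    have kr : HasDerivAt (fun ψ : ℝ => 2 - 2 * Real.cos ψ) (2 * Real.sin φ) φ := by
      have := ((Real.hasDerivAt_cos φ).const_mul 2).const_sub 2
      simpa using this
    have := ((kre.pow 2).add (kim.pow 2)).sub (kr.pow 2)
    refine this.congr_deriv ?_
    simp only [hg']
    ring
  have hcont : ContinuousOn g (Icc (-(Real.pi / 2)) 0) := by
    have c1 : ContinuousOn D (Icc (-(Real.pi / 2)) 0) := by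
      apply ContinuousOn.sub
      · exact (continuous_const.mul (Complex.continuous_ofReal.comp Real.continuous_cos)).continuousOn
      · exact hF.cont m₀
    have c2 : ContinuousOn (fun φ => (D φ).re) (Icc (-(Real.pi / 2)) 0) :=
      Complex.continuous_re.comp_continuousOn c1
    have c3 : ContinuousOn (fun φ => (D φ).im) (Icc (-(Real.pi / 2)) 0) :=
      Complex.continuous_im.comp_continuousOn c1
    have c4 : ContinuousOn (fun φ : ℝ => 2 - 2 * Real.cos φ) (Icc (-(Real.pi / 2)) 0) :=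
      (continuous_const.sub (continuous_const.mul Real.continuous_cos)).continuousOn
    exact ((c2.pow 2).add (c3.pow 2)).sub (c4.pow 2)
  have hgz : ∀ φ ∈ Ioo (-(Real.pi / 2)) 0, g φ = 0 → 0 < g' φ := by
    intro φ hφ h0
    have hcos1 : Real.cos φ < 1 := by
      have h3 : Real.cos φ ≠ 1 := by
        intro h4
        rw [Real.cos_eq_one_iff_of_lt_of_lt (by linarith [hφ.1]) (by linarith [hφ.2])] at h4
        exact hφ.2.ne h4
      exact lt_of_le_of_ne (Real.cos_le_one φ) h3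
    have hσ : Real.sin φ < 0 := Real.sin_neg_of_neg_of_neg_pi_lt hφ.2 (by linarith [hφ.1])
    have hden := (h2 p hp H hF φ hφ m₀).1
    have hcs := Real.cos_sq_add_sin_sq φ
    -- complex identity
    have hid : D' φ * (2 * (p : ℂ) * D φ - 2 * Complex.I * Real.sin φ)
        = D φ * (Complex.I * (D φ - 2 * (2 * Real.cos φ) + 4 * Complex.I * p * Real.sin φ)) := by
      have hh : H m₀ φ = (2 * Real.cos φ : ℂ) - D φ := by simp only [hD]; ring
      have hcsC : ((Real.cos φ : ℝ) : ℂ) ^ 2 + ((Real.sin φ : ℝ) : ℂ) ^ 2 = 1 := by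
        exact_mod_cast hcs
      have hden' : (2 * (p : ℂ) * D φ - 2 * Complex.I * Real.sin φ) ≠ 0 := hden
      have e1 : D' φ = (2 * (-Real.sin φ : ℝ) : ℂ)
          - Complex.I * (4 - ((2 * Real.cos φ : ℂ) - D φ) ^ 2)
            / (2 * (p : ℂ) * D φ - 2 * Complex.I * Real.sin φ) := by
        simp only [hD']
        rw [← hh]
      rw [e1, sub_mul, div_mul_cancel₀ _ hden', Complex.ofReal_neg]
      have hI : Complex.I ^ 2 = -1 := Complex.I_sq
      linear_combination (4 * Complex.I) * hcsC - 4 * (p : ℂ) * (Real.sin φ : ℂ) * D φ * hI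
    have hre := congrArg Complex.re hid
    have himm := congrArg Complex.im hid
    simp [-Complex.ofReal_cos, -Complex.ofReal_sin] at hre himm
    have hgφ : (D φ).re ^ 2 + (D φ).im ^ 2 = (2 - 2 * Real.cos φ) ^ 2 := by
      have : (D φ).re ^ 2 + (D φ).im ^ 2 - (2 - 2 * Real.cos φ) ^ 2 = 0 := h0
      linarith
    refine deriv_pos (P := p) (x := (D φ).re) (y := (D φ).im) (c := 2 * Real.cos φ)
      (σ := Real.sin φ) (r := 2 - 2 * Real.cos φ) (d := (D' φ).re) (e := (D' φ).im)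
      (by positivity) (him φ hφ.1.le hφ.2).1 hσ (by linarith) rfl
      (by linear_combination 4 * hcs) hgφ ?_ ?_
    · linear_combination hre
    · linear_combination himm
  have hga : g (-(Real.pi / 2)) < 0 := by
    have h3 := (him (-(Real.pi / 2)) le_rfl (by linarith)).2 rfl
    have h4 := hnorm (-(Real.pi / 2))
    have h5 : Real.cos (-(Real.pi / 2)) = 0 := by rw [Real.cos_neg, Real.cos_pi_div_two]
    simp only [hg]
    rw [← h4, h5]
    have h6 : ‖(2 * ((0 : ℝ) : ℂ)) - H m₀ (-(Real.pi / 2))‖ = ‖H m₀ (-(Real.pi / 2))‖ := by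
      simp
    rw [h6]
    nlinarith [norm_nonneg (H m₀ (-(Real.pi / 2)))]
  have hgb : 0 < g 0 := by
    have h4 := hnorm 0
    simp only [hg]
    rw [← h4, Real.cos_zero]
    have hne : H m₀ 0 ≠ 2 := by
      intro h5
      have h6 := hF.strip 0 ⟨by linarith, le_rfl⟩ m₀
      have h7 : al (H m₀ 0) = Real.pi := by
        rw [h5]
        unfold al
        rw [← Real.arccos_neg_one]
        congr 1
        have : ‖(2 : ℂ) + 2‖ = 4 := by norm_num
        rw [this]
        norm_num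
      rw [h7, hm₀, Nat.cast_zero, zero_add, one_mul, abs_lt] at h6
      have h8 : Real.pi / p ≤ Real.pi / 2 := div_le_div_of_nonneg_left hπ.le (by norm_num) hpR
      have h9 : Real.pi / (2 * p) ≤ Real.pi / 4 :=
        div_le_div_of_nonneg_left hπ.le (by norm_num) (by linarith)
      linarith [h6.2]
    have h10 : 0 < ‖(2 * ((1 : ℝ) : ℂ)) - H m₀ 0‖ := by
      rw [norm_pos_iff, sub_ne_zero]
      simpa using hne.symm
    have : (2 - 2 * (1 : ℝ)) ^ 2 = 0 := by norm_num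
    rw [this, sub_zero]
    positivity
  obtain ⟨φ₀, hφ₀, k1, k2, k3⟩ := single (by linarith : -(Real.pi / 2) < 0) hcont hga hgb hgd hgz
  refine ⟨φ₀, hφ₀, ?_, ?_, ?_⟩
  · intro φ hφ
    have h3 : (D φ).re ^ 2 + (D φ).im ^ 2 - (2 - 2 * Real.cos φ) ^ 2 < 0 := k1 φ hφ
    rw [← hnorm] at h3
    exact lt_of_pow_lt_pow_left₀ 2 (hr0 φ) (by linarith)
  · have h3 : (D φ₀).re ^ 2 + (D φ₀).im ^ 2 - (2 - 2 * Real.cos φ₀) ^ 2 = 0 := k2
    rw [← hnorm] at h3
    exact (pow_left_inj₀ (norm_nonneg _) (hr0 φ₀) (by norm_num : (2 : ℕ) ≠ 0)).1 (by linarith)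
  · intro φ hφ
    have h3 : 0 < (D φ).re ^ 2 + (D φ).im ^ 2 - (2 - 2 * Real.cos φ) ^ 2 := k3 φ hφ
    rw [← hnorm] at h3
    exact lt_of_pow_lt_pow_left₀ 2 (norm_nonneg _) (by linarith)

end Pool.Agent.Q42.VC
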